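import Pool.Agent.H66.L.S8.Y504.CO.Stm5

/-!
# CO-K5: a cycle from outgoing orbits in a finite set of periodic orbits

The lemmas on full orbits are copies of lemmas of helper929 (`Pool/Agent/Y929/CO/NC.lean`).
-/

set_option autoImplicit false
set_option linter.unusedSectionVars false

open scoped Topology
open Filter Set

universe u

namespace Pool.Agent.Y948.CO.K5

open Pool.Agent.H718R2.G Pool.Agent.TH80.OMS Pool.Agent.Y504.CO

section dyn

variable {X : Type u} {f : X → X}

lemma full_nat {x : ℤ → X} (hx : ∀ j, f (x j) = x (j + 1)) (j : ℤ) (m : ℕ) :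
    f^[m] (x j) = x (j + m) := by
  induction m with
  | zero => simp
  | succ m ih =>
    rw [Function.iterate_succ_apply', ih, hx]
    congr 1
    push_cast
    ring

lemma full_eq (hf : Function.Injective f) {x y : ℤ → X} (hx : ∀ j, f (x j) = x (j + 1))
    (hy : ∀ j, f (y j) = y (j + 1)) {a b : ℤ} (h : x a = y b) (m : ℤ) :
    x (a + m) = y (b + m) := by
  rcases le_total 0 m with hm | hm
  · obtain ⟨n, rfl⟩ := Int.eq_ofNat_of_zero_le hm
    rw [← full_nat hx, ← full_nat hy, h]
  · obtain ⟨n, hn⟩ := Int.eq_ofNat_of_zero_le (neg_nonneg.2 hm)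
    apply hf.iterate n
    rw [full_nat hx, full_nat hy]
    have e1 : a + m + n = a := by omega
    have e2 : b + m + n = b := by omega
    rw [e1, e2, h]

lemma inj_of_off [TopologicalSpace X] [T2Space X] (hf : Function.Injective f) {x : ℤ → X}
    (hx : ∀ j, f (x j) = x (j + 1)) {p : X}
    (hb : ∀ O : Set X, IsOpen O → orb f p ⊆ O → ∀ᶠ j : ℤ in atBot, x j ∈ O)
    (h0 : x 0 ∉ orb f p) {j : ℤ} (hj : x j = x 0) : j = 0 := by
  by_contra hne
  have hper : ∀ m, x (j + m) = x m := by
    intro m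
    have := full_eq hf hx hx hj m
    rwa [zero_add] at this
  -- a positive period
  obtain ⟨d, hd, hdp⟩ : ∃ d : ℤ, 0 < d ∧ ∀ m, x (m - d) = x m := by
    rcases lt_or_gt_of_ne hne with h | h
    · refine ⟨-j, by omega, fun m => ?_⟩
      have e : m - -j = j + m := by ring
      rw [e, hper]
    · refine ⟨j, h, fun m => ?_⟩
      have h1 := hper (m - j)
      have e : j + (m - j) = m := by ring
      rw [e] at h1
      exact h1.symm
  have hn : ∀ n : ℕ, x (-(n * d)) = x 0 := by
    intro n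
    induction n with
    | zero => simp
    | succ n ih =>
      have e : -(((n + 1 : ℕ) : ℤ) * d) = -(n * d) - d := by push_cast; ring
      rw [e, hdp, ih]
  obtain ⟨A, hA⟩ := eventually_atBot.1 (hb {x 0}ᶜ isOpen_compl_singleton
    (fun y hy h => h0 (by rw [← (h : y = x 0)]; exact hy)))
  refine hA (-((A.natAbs : ℤ) * d)) ?_ (hn _)
  have h1 : (A.natAbs : ℤ) ≤ A.natAbs * d := by nlinarith [Int.natCast_nonneg A.natAbs]
  omega

/-- the orbit of a point of a periodic orbit -/
lemma orb_eq {p y : X} (hp : p ∈ Per f) (hy : y ∈ orb f p) : orb f y = orb f p := by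
  obtain ⟨m, hm, hmp⟩ := hp
  obtain ⟨a, rfl⟩ := hy
  have hper : Function.IsPeriodicPt f (m * a) p :=
    Function.IsPeriodicPt.mul_const (show Function.IsPeriodicPt f m p from hmp) a
  have hback : f^[m * a - a] (f^[a] p) = p := by
    rw [← Function.iterate_add_apply, Nat.sub_add_cancel (Nat.le_mul_of_pos_left a hm)]
    exact hper
  ext v
  constructor
  · rintro ⟨i, rfl⟩
    exact ⟨i + a, Function.iterate_add_apply f i a p⟩
  · rintro ⟨i, rfl⟩
    refine ⟨i + (m * a - a), ?_⟩
    show f^[i + (m * a - a)] (f^[a] p) = f^[i] p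
    rw [Function.iterate_add_apply, hback]

lemma orb_disj {p q : X} (hp : p ∈ Per f) (hq : q ∈ Per f) (h : orb f p ≠ orb f q) :
    Disjoint (orb f p) (orb f q) := by
  rw [Set.disjoint_left]
  intro y hy hy'
  exact h ((orb_eq hp hy).symm.trans (orb_eq hq hy'))

lemma orb_per {p y : X} (hp : p ∈ Per f) (hy : y ∈ orb f p) : y ∈ Per f := by
  obtain ⟨m, hm, hmp⟩ := hp
  obtain ⟨a, rfl⟩ := hy
  refine ⟨m, hm, ?_⟩
  show f^[m] (f^[a] p) = f^[a] p
  rw [← Function.iterate_add_apply, add_comm, Function.iterate_add_apply, hmp]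

lemma conn_congr [TopologicalSpace X] {z p p' p'' : X} (h : Conn f z p p')
    (he : orb f p' = orb f p'') : Conn f z p p'' := by
  obtain ⟨h1, h2, h3, h4⟩ := h
  refine ⟨h1, he ▸ h2, h3, fun O hO hO' => h4 O hO ?_⟩
  rw [he]
  exact hO'

end dyn

theorem main : S_K5.{u} := by
  intro X _ _ f H hfin hne hout hfwd
  have hf : Function.Injective (f : X → X) := f.injective
  have hstep : ∀ p : {p : X // p ∈ Per f ∩ H}, ∃ q : {p : X // p ∈ Per f ∩ H}, ∃ z : X,
      Conn f z (p : X) (q : X) := by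
    rintro ⟨p, hp, hpH⟩
    obtain ⟨w, hw, hwp, hα⟩ := hout p hp hpH
    have hwper : w ∉ Per f := by
      rintro ⟨m, hm, hmw⟩
      obtain ⟨x, hx, hx0, hb⟩ := hα
      have h0 : x 0 ∉ orb f p := by rw [hx0]; exact hwp
      have h1 : x (m : ℤ) = x 0 := by
        have h2 := full_nat (f := (f : X → X)) hx 0 m
        rw [zero_add] at h2
        rw [← h2, hx0]
        exact hmw
      have h3 := inj_of_off hf hx hb h0 h1
      omega
    obtain ⟨q, hq, hqH, hω⟩ := hfwd w hw hwper
    exact ⟨⟨q, hq, hqH⟩, w, hwp, fun h => hwper (orb_per hq h), hα, hω⟩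
  choose nxt zz hzz using hstep
  obtain ⟨p₀, hp₀⟩ := hne
  set s : ℕ → {p : X // p ∈ Per f ∩ H} := fun n => nxt^[n] ⟨p₀, hp₀⟩ with hs
  have hsn : ∀ n, Conn f (zz (s n)) (s n : X) (s (n + 1) : X) := by
    intro n
    have : s (n + 1) = nxt (s n) := Function.iterate_succ_apply' nxt n _
    rw [this]
    exact hzz (s n)
  have hper : ∀ n, (s n : X) ∈ Per f := fun n => (s n).2.1
  -- pigeonhole
  have hex : ∃ j, ∃ i < j, orb f (s i : X) = orb f (s j : X) := by
    have hF : Finite {p : X // p ∈ Per f ∩ H} := hfin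
    obtain ⟨i, j, hij, he⟩ := Finite.exists_ne_map_eq_of_infinite s
    rcases lt_or_gt_of_ne hij with h | h
    · exact ⟨j, i, h, by rw [he]⟩
    · exact ⟨i, j, h, by rw [he]⟩
  classical
  obtain ⟨i, hij, he⟩ := Nat.find_spec hex
  have hmin : ∀ l < Nat.find hex, ∀ l' < l, orb f (s l' : X) ≠ orb f (s l : X) :=
    fun l hl l' hl' h => Nat.find_min hex hl ⟨l', hl', h⟩
  generalize Nat.find hex = j at hij he hmin
  have hne' : ∀ l < j, ∀ l' < j, l ≠ l' → orb f (s l : X) ≠ orb f (s l' : X) := by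
    intro l hl l' hl' h
    rcases lt_or_gt_of_ne h with h1 | h1
    · exact hmin l' hl' l h1
    · exact (hmin l hl l' h1).symm
  refine ⟨j - 1 - i, fun l => (s (i + l) : X), fun l => zz (s (i + l)), ?_, ?_, ?_, ?_⟩
  · intro l _
    exact hper (i + l)
  · intro l hl l' hl' hll
    exact orb_disj (hper _) (hper _) (hne' (i + l) (by omega) (i + l') (by omega) (by omega))
  · intro l _
    exact hsn (i + l)
  · have h1 := hsn (i + (j - 1 - i))
    have e : i + (j - 1 - i) + 1 = j := by omega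
    rw [e] at h1
    exact conn_congr h1 he.symm

end Pool.Agent.Y948.CO.K5
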